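import Mathlib

set_option autoImplicit false

/-!
# Bounded components of the curve where `R'` is real

Let `D` be a pole divisor on `ℂP¹` with at least one finite pole and let `s(D)` be the number of its
distinct finite poles.  The maximal number `N(D)` of bounded components of
`𝔍_R = (R')⁻¹(ℝP¹)`, over the rational functions `R` with pole divisor `D`, is `s(D)` if `∞` is a
pole, and `s(D) - 1` if `∞` is not a pole.
-/

open Polynomial Metric Filter Topology

namespace Pool.Agent.Results.MP_bd2914_ag.SharpBound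

/-- The order of the pole of the rational function `R` at a point of `ℂP¹ = ℂ ∪ {∞}`; it is zero if
`R` has no pole there. -/
noncomputable def poleOrder (R : RatFunc ℂ) (p : OnePoint ℂ) : ℕ :=
  p.elim R.intDegree.toNat fun z => R.denom.rootMultiplicity z

/-- `D` is the pole divisor of `R`. -/
def HasPoleDivisor (R : RatFunc ℂ) (D : OnePoint ℂ →₀ ℕ) : Prop := ∀ p, poleOrder R p = D p

/-- `𝔍_R ∩ ℂ`: the finite poles of `R` and the points of `ℂ` at which the derivative of `R` is
real. -/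
def realLocus (R : RatFunc ℂ) : Set ℂ :=
  {z | R.denom.eval z = 0 ∨ (deriv (fun w => R.eval (RingHom.id ℂ) w) z).im = 0}

/-- The bounded connected components of `𝔍_R ∩ ℂ`. -/
def boundedComponents (R : RatFunc ℂ) : Set (Set ℂ) :=
  {K | (∃ z ∈ realLocus R, K = connectedComponentIn (realLocus R) z) ∧ Bornology.IsBounded K}

/-- The number `s(D)` of distinct finite poles in `D`. -/
noncomputable def finitePoles (D : OnePoint ℂ →₀ ℕ) : ℕ := {z : ℂ | D z ≠ 0}.ncard

/-! ## Topology -/

lemma exists_clopen {I : Set ℂ} (hI : IsClosed I) {x : ℂ} (hx : x ∈ I)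
    (hb : Bornology.IsBounded (connectedComponentIn I x)) {C : Set ℂ} (hC : IsClosed C)
    (hdisj : Disjoint C (connectedComponentIn I x)) :
    ∃ V ⊆ I, IsCompact V ∧ IsClosed (I \ V) ∧ x ∈ V ∧ Disjoint V C := by
  obtain ⟨r, hr⟩ := hb.subset_ball (0 : ℂ)
  have hxr : x ∈ ball (0 : ℂ) r := hr (mem_connectedComponentIn hx)
  have hcpt : IsCompact (I ∩ closedBall 0 r) := (isCompact_closedBall 0 r).inter_left hI
  have : CompactSpace ↥(I ∩ closedBall (0 : ℂ) r) := isCompact_iff_compactSpace.1 hcpt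
  let x' : ↥(I ∩ closedBall (0 : ℂ) r) := ⟨x, hx, ball_subset_closedBall hxr⟩
  have hcomp : Subtype.val '' (connectedComponent x') ⊆ connectedComponentIn I x := by
    apply IsPreconnected.subset_connectedComponentIn
    · exact isPreconnected_connectedComponent.image _ continuous_subtype_val.continuousOn
    · exact ⟨x', mem_connectedComponent, rfl⟩
    · rintro _ ⟨y, -, rfl⟩
      exact y.2.1
  have hC' : IsCompact (Subtype.val ⁻¹' (C ∪ sphere 0 r) : Set ↥(I ∩ closedBall (0 : ℂ) r)) :=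
    ((hC.union isClosed_sphere).preimage continuous_subtype_val).isCompact
  have hfam := hC'.elim_finite_subfamily_closed
    (fun s : { s : Set ↥(I ∩ closedBall (0 : ℂ) r) // IsClopen s ∧ x' ∈ s } => s.1)
    (fun s => s.2.1.1) (by
      rw [← connectedComponent_eq_iInter_isClopen, Set.eq_empty_iff_forall_notMem]
      rintro y ⟨hy1, hy2⟩
      have hy3 := hcomp ⟨y, hy2, rfl⟩
      rcases hy1 with hy1 | hy1
      · exact Set.disjoint_left.1 hdisj hy1 hy3
      · have := hr hy3
        rw [mem_ball] at this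
        rw [mem_sphere] at hy1
        linarith)
  obtain ⟨u, hu⟩ := hfam
  set s : Set ↥(I ∩ closedBall (0 : ℂ) r) := ⋂ i ∈ u, i.1 with hs
  have hsc : IsClopen s := isClopen_biInter_finset fun i _ => i.2.1
  have hxs : x' ∈ s := Set.mem_iInter₂.2 fun i _ => i.2.2
  have hsd : ∀ y ∈ s, y.1 ∉ C ∧ y.1 ∉ sphere (0 : ℂ) r := by
    intro y hy
    have : y ∉ (Subtype.val ⁻¹' (C ∪ sphere 0 r) : Set ↥(I ∩ closedBall (0 : ℂ) r)) := by
      intro h
      have : y ∈ (Subtype.val ⁻¹' (C ∪ sphere 0 r) : Set ↥(I ∩ closedBall (0 : ℂ) r)) ∩ s := ⟨h, hy⟩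
      rw [hs, hu] at this
      exact this
    simp only [Set.mem_preimage, Set.mem_union, not_or] at this
    exact this
  refine ⟨Subtype.val '' s, ?_, ?_, ?_, ⟨x', hxs, rfl⟩, ?_⟩
  · rintro _ ⟨y, -, rfl⟩
    exact y.2.1
  · exact hsc.1.isCompact.image continuous_subtype_val
  · have : I \ (Subtype.val '' s) = Subtype.val '' sᶜ ∪ (I ∩ (ball (0 : ℂ) r)ᶜ) := by
      ext y
      constructor
      · rintro ⟨hy1, hy2⟩
        by_cases hy : y ∈ closedBall (0 : ℂ) r
        · refine Or.inl ⟨⟨y, hy1, hy⟩, ?_, rfl⟩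
          intro h
          exact hy2 ⟨_, h, rfl⟩
        · exact Or.inr ⟨hy1, fun h => hy (ball_subset_closedBall h)⟩
      · rintro (⟨y, hy, rfl⟩ | ⟨hy1, hy2⟩)
        · refine ⟨y.2.1, ?_⟩
          rintro ⟨y', hy', he⟩
          have : y' = y := Subtype.ext he
          rw [this] at hy'
          exact hy hy'
        · refine ⟨hy1, ?_⟩
          rintro ⟨y', hy', rfl⟩
          have h1 := (hsd y' hy').2
          have h2 := y'.2.2
          simp only [mem_sphere, mem_closedBall] at h1 h2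
          exact h1 (le_antisymm h2 (by simpa using hy2))
    rw [this]
    exact (hsc.compl.1.isCompact.image continuous_subtype_val).isClosed.union
      (hI.inter isOpen_ball.isClosed_compl)
  · rw [Set.disjoint_left]
    rintro _ ⟨y, hy, rfl⟩
    exact (hsd y hy).1

/-! ## The derivative -/

/-- the numerator of the derivative -/
noncomputable def dnum (R : RatFunc ℂ) : ℂ[X] :=
  derivative R.num * R.denom - R.num * derivative R.denom

noncomputable def dR (R : RatFunc ℂ) (z : ℂ) : ℂ := deriv (fun w => R.eval (RingHom.id ℂ) w) z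

lemma dR_eq {R : RatFunc ℂ} {z : ℂ} (hz : R.denom.eval z ≠ 0) :
    dR R z = (dnum R).eval z / R.denom.eval z ^ 2 := by
  unfold dR dnum
  have h : (fun w => R.eval (RingHom.id ℂ) w) = fun w => R.num.eval w / R.denom.eval w := by
    funext w
    simp [RatFunc.eval, Polynomial.eval₂_id]
  have h2 := ((R.num.hasDerivAt z).fun_div (R.denom.hasDerivAt z) hz).deriv
  rw [h, h2]
  simp

lemma isOpen_nonpole (R : RatFunc ℂ) : IsOpen {z : ℂ | R.denom.eval z ≠ 0} :=
  isOpen_ne_fun R.denom.continuous continuous_const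

lemma dR_eventuallyEq {R : RatFunc ℂ} {z : ℂ} (hz : R.denom.eval z ≠ 0) :
    dR R =ᶠ[𝓝 z] fun w => (dnum R).eval w / R.denom.eval w ^ 2 := by
  filter_upwards [(isOpen_nonpole R).mem_nhds hz] with w hw
  exact dR_eq hw

lemma analyticAt_dR {R : RatFunc ℂ} {z : ℂ} (hz : R.denom.eval z ≠ 0) : AnalyticAt ℂ (dR R) z := by
  refine AnalyticAt.congr ?_ (dR_eventuallyEq hz).symm
  have h1 : ∀ p : ℂ[X], AnalyticAt ℂ (fun w => p.eval w) z := by
    intro p
    simpa using (analyticAt_id (𝕜 := ℂ) (z := z)).aeval_polynomial p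
  exact (h1 _).div ((h1 _).pow 2) (pow_ne_zero 2 hz)

lemma mem_realLocus {R : RatFunc ℂ} {z : ℂ} :
    z ∈ realLocus R ↔ R.denom.eval z = 0 ∨ (dR R z).im = 0 := Iff.rfl

lemma isClosed_realLocus (R : RatFunc ℂ) : IsClosed (realLocus R) := by
  rw [← isOpen_compl_iff, isOpen_iff_mem_nhds]
  intro z hz
  rw [Set.mem_compl_iff, mem_realLocus, not_or] at hz
  have h1 := (analyticAt_dR hz.1).continuousAt
  have h2 : ∀ᶠ w in 𝓝 z, (dR R w).im ≠ 0 :=
    (Complex.continuous_im.continuousAt.comp h1).eventually_ne hz.2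
  filter_upwards [h2, (isOpen_nonpole R).mem_nhds hz.1] with w hw1 hw2
  rw [Set.mem_compl_iff, mem_realLocus, not_or]
  exact ⟨hw2, hw1⟩

/-- `R'` is not constant if `R` has a finite pole -/
lemma dnum_ne {R : RatFunc ℂ} {p : ℂ} (hp : R.denom.eval p = 0) (c : ℂ) :
    dnum R ≠ C c * R.denom ^ 2 := by
  intro h
  have h1 : R.denom ∣ R.num * derivative R.denom := by
    refine ⟨derivative R.num - C c * R.denom, ?_⟩
    unfold dnum at h
    linear_combination -h
  have h2 : R.denom ∣ derivative R.denom := R.isCoprime_num_denom.symm.dvd_of_dvd_mul_left h1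
  have h0 : R.denom.natDegree ≠ 0 := by
    intro h0
    have := Polynomial.eq_one_of_monic_natDegree_zero R.monic_denom h0
    rw [this] at hp
    simp at hp
  have h3 : derivative R.denom = 0 :=
    Polynomial.eq_zero_of_dvd_of_natDegree_lt h2 (Polynomial.natDegree_derivative_lt h0)
  exact h0 (Polynomial.derivative_eq_zero.1 h3)

lemma poly_eq_of_eventually {p q : ℂ[X]} {z : ℂ} (h : ∀ᶠ w in 𝓝 z, p.eval w = q.eval w) :
    p = q := by
  apply Polynomial.eq_of_infinite_eval_eq
  have h1 : {w | p.eval w = q.eval w} ∈ 𝓝 z := h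
  exact infinite_of_mem_nhds z h1

lemma nhds_le_map_dR {R : RatFunc ℂ} {p : ℂ} (hp : R.denom.eval p = 0) {z : ℂ}
    (hz : R.denom.eval z ≠ 0) : 𝓝 (dR R z) ≤ map (dR R) (𝓝 z) := by
  refine (analyticAt_dR hz).eventually_constant_or_nhds_le_map_nhds.resolve_left ?_
  intro h
  refine dnum_ne hp (dR R z) (poly_eq_of_eventually (z := z) ?_)
  filter_upwards [h, (isOpen_nonpole R).mem_nhds hz] with w hw1 hw2
  rw [dR_eq hw2, div_eq_iff (pow_ne_zero 2 hw2)] at hw1
  simp [hw1]

/-- near a point `z` where `R'` is real there are points `w` where `R'` is real and larger -/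
lemma exists_larger {R : RatFunc ℂ} {p : ℂ} (hp : R.denom.eval p = 0) {z : ℂ}
    (hz : R.denom.eval z ≠ 0) (hre : (dR R z).im = 0) {O : Set ℂ} (hO : O ∈ 𝓝 z) :
    ∃ w ∈ O, R.denom.eval w ≠ 0 ∧ (dR R w).im = 0 ∧ (dR R z).re < (dR R w).re := by
  have h1 : (dR R) '' (O ∩ {z | R.denom.eval z ≠ 0}) ∈ 𝓝 (dR R z) :=
    nhds_le_map_dR hp hz (image_mem_map (inter_mem hO ((isOpen_nonpole R).mem_nhds hz)))
  obtain ⟨ε, hε, hball⟩ := Metric.mem_nhds_iff.1 h1
  have h2 : dR R z + ((ε / 2 : ℝ) : ℂ) ∈ ball (dR R z) ε := by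
    rw [mem_ball, dist_eq_norm]
    simp only [add_sub_cancel_left, Complex.norm_real, Real.norm_eq_abs]
    rw [abs_of_pos (by linarith)]
    linarith
  obtain ⟨w, ⟨hw1, hw2⟩, hw3⟩ := hball h2
  refine ⟨w, hw1, hw2, ?_, ?_⟩
  · rw [hw3]
    simp [hre]
  · rw [hw3]
    simp only [Complex.add_re, Complex.ofReal_re]
    linarith

/-! ## The upper bound -/

lemma no_polefree_clopen {R : RatFunc ℂ} {p : ℂ} (hp : R.denom.eval p = 0) {V : Set ℂ}
    (hV : V ⊆ realLocus R) (hc : IsCompact V) (hcl : IsClosed (realLocus R \ V))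
    (hne : V.Nonempty) : ∃ z ∈ V, R.denom.eval z = 0 := by
  by_contra hcon
  push Not at hcon
  obtain ⟨z, hzV, hz⟩ := hc.exists_isMaxOn hne (f := fun z => (dR R z).re) (fun z hz =>
    (Complex.continuous_re.continuousAt.comp
      (analyticAt_dR (hcon z hz)).continuousAt).continuousWithinAt)
  have him : (dR R z).im = 0 := (hV hzV).resolve_left (hcon z hzV)
  obtain ⟨w, hw1, hw2, hw3, hw4⟩ := exists_larger hp (hcon z hzV) him
    (hcl.isOpen_compl.mem_nhds (fun h => h.2 hzV))
  have hwV : w ∈ V := by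
    by_contra h
    exact hw1 ⟨Or.inr hw3, h⟩
  exact absurd (hz hwV) (not_le.2 hw4)

/-- every bounded component contains a finite pole -/
lemma exists_pole_mem {R : RatFunc ℂ} {p : ℂ} (hp : R.denom.eval p = 0) {x : ℂ}
    (hx : x ∈ realLocus R) (hb : Bornology.IsBounded (connectedComponentIn (realLocus R) x)) :
    ∃ z ∈ connectedComponentIn (realLocus R) x, R.denom.eval z = 0 := by
  by_contra hcon
  push Not at hcon
  have hC : IsClosed {z : ℂ | R.denom.eval z = 0} :=
    isClosed_eq R.denom.continuous continuous_const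
  obtain ⟨V, hV, hc, hcl, hxV, hd⟩ := exists_clopen (isClosed_realLocus R) hx hb hC (by
    rw [Set.disjoint_left]
    intro z hz1 hz2
    exact hcon z hz2 hz1)
  obtain ⟨z, hz1, hz2⟩ := no_polefree_clopen hp hV hc hcl ⟨x, hxV⟩
  exact Set.disjoint_left.1 hd hz1 hz2

lemma norm_multiset_prod_le {s : Multiset ℂ} {r : ℝ} (hr : 0 ≤ r) (z : ℂ)
    (h : ∀ a ∈ s, ‖a‖ ≤ r) : ‖(s.map (z - ·)).prod‖ ≤ (‖z‖ + r) ^ s.card := by
  induction s using Multiset.induction_on with
  | empty => simp
  | cons a s ih =>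
    have h1 := ih fun b hb => h b (Multiset.mem_cons_of_mem hb)
    have h2 := h a (Multiset.mem_cons_self a s)
    rw [Multiset.map_cons, Multiset.prod_cons, norm_mul, Multiset.card_cons, pow_succ, mul_comm]
    have h3 : ‖z - a‖ ≤ ‖z‖ + r := (norm_sub_le z a).trans (by linarith)
    exact mul_le_mul h1 h3 (norm_nonneg _) (by positivity)

lemma denom_natDegree_pos {R : RatFunc ℂ} {p : ℂ} (hp : R.denom.eval p = 0) :
    0 < R.denom.natDegree := by
  rcases Nat.eq_zero_or_pos R.denom.natDegree with h0 | h0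
  · have := Polynomial.eq_one_of_monic_natDegree_zero R.monic_denom h0
    rw [this] at hp
    simp at hp
  · exact h0

lemma natDegree_dnum_lt {R : RatFunc ℂ} {p : ℂ} (hp : R.denom.eval p = 0)
    (hdeg : R.num.natDegree ≤ R.denom.natDegree) :
    (dnum R).natDegree < 2 * R.denom.natDegree := by
  have hq := denom_natDegree_pos hp
  unfold dnum
  have h1 : (derivative R.num * R.denom).natDegree ≤ 2 * R.denom.natDegree - 1 := by
    refine natDegree_mul_le.trans ?_
    have := natDegree_derivative_le R.num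
    omega
  have h2 : (R.num * derivative R.denom).natDegree ≤ 2 * R.denom.natDegree - 1 := by
    refine natDegree_mul_le.trans ?_
    have := natDegree_derivative_le R.denom
    omega
  have := natDegree_sub_le (derivative R.num * R.denom) (R.num * derivative R.denom)
  have h3 := max_le h1 h2
  omega

/-- if `∞` is not a pole then `R'` takes positive values far away -/
lemma exists_far {R : RatFunc ℂ} {p : ℂ} (hp : R.denom.eval p = 0)
    (hdeg : R.num.natDegree ≤ R.denom.natDegree) (r : ℝ) :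
    ∃ z : ℂ, r < ‖z‖ ∧ R.denom.eval z ≠ 0 ∧ (dR R z).im = 0 ∧ 0 < (dR R z).re := by
  have hfin : {z : ℂ | R.denom.eval z = 0}.Finite := by
    have := Polynomial.finite_setOfPred_isRoot R.denom_ne_zero
    exact this
  obtain ⟨r1, hr1⟩ := hfin.isBounded.subset_closedBall (0 : ℂ)
  set r' : ℝ := max (max r r1) 0 with hr'
  have hr0 : 0 ≤ r' := le_max_right _ _
  by_contra hcon
  push Not at hcon
  have key : ∀ ε : ℝ, 0 < ε → ∀ z : ℂ, (dnum R).eval z = ε * R.denom.eval z ^ 2 → ‖z‖ ≤ r' := by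
    intro ε hε z hz
    by_contra hlt
    push Not at hlt
    have hz0 : R.denom.eval z ≠ 0 := by
      intro h
      have := hr1 h
      rw [mem_closedBall, dist_zero_right] at this
      have h2 : r1 ≤ r' := (le_max_right _ _).trans (le_max_left _ _)
      linarith
    have h1 : r < ‖z‖ := lt_of_le_of_lt ((le_max_left _ _).trans (le_max_left _ _)) hlt
    have h2 : dR R z = ε := by
      rw [dR_eq hz0, hz, mul_div_assoc, div_self (pow_ne_zero 2 hz0), mul_one]
    have h3 := hcon z h1 hz0 (by rw [h2]; simp)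
    rw [h2] at h3
    simp only [Complex.ofReal_re] at h3
    linarith
  have hlt := natDegree_dnum_lt hp hdeg
  have hbound : ∀ z : ℂ, ∀ ε : ℝ, 0 < ε →
      ‖(dnum R).eval z‖ ≤ ε * (‖R.denom.eval z‖ ^ 2 + (‖z‖ + r') ^ (2 * R.denom.natDegree)) := by
    intro z ε hε
    set f : ℂ[X] := C (ε : ℂ) * R.denom ^ 2 - dnum R with hf
    have hεc : (ε : ℂ) ≠ 0 := by exact_mod_cast hε.ne'
    have hd1 : (C (ε : ℂ) * R.denom ^ 2).natDegree = 2 * R.denom.natDegree := by
      rw [natDegree_C_mul hεc, natDegree_pow]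
    have hl1 : (C (ε : ℂ) * R.denom ^ 2).leadingCoeff = ε := by
      rw [leadingCoeff_mul, leadingCoeff_C, leadingCoeff_pow, R.monic_denom.leadingCoeff]
      simp
    have hdl : (dnum R).degree < (C (ε : ℂ) * R.denom ^ 2).degree := by
      apply degree_lt_degree
      rw [hd1]
      exact hlt
    have hl2 : f.leadingCoeff = ε := by
      rw [hf, leadingCoeff_sub_of_degree_lt hdl, hl1]
    have hd2 : f.natDegree = 2 * R.denom.natDegree := by
      rw [hf, natDegree_sub_eq_left_of_natDegree_lt (by rw [hd1]; exact hlt), hd1]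
    have hs := IsAlgClosed.splits f
    have he := hs.eval_eq_prod_roots z
    have hc : f.roots.card = 2 * R.denom.natDegree := by
      rw [← hd2]
      exact hs.natDegree_eq_card_roots.symm
    have hn : ‖f.eval z‖ ≤ ε * (‖z‖ + r') ^ (2 * R.denom.natDegree) := by
      rw [he, norm_mul, hl2, Complex.norm_real, Real.norm_eq_abs, abs_of_pos hε, ← hc]
      apply mul_le_mul_of_nonneg_left _ hε.le
      apply norm_multiset_prod_le hr0
      intro a ha
      have ha' : f.eval a = 0 := isRoot_of_mem_roots ha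
      apply key ε hε
      rw [hf] at ha'
      simp only [eval_sub, eval_mul, eval_C, eval_pow] at ha'
      linear_combination -ha'
    have hfe : (dnum R).eval z = ε * R.denom.eval z ^ 2 - f.eval z := by
      rw [hf]
      simp
    rw [hfe]
    refine (norm_sub_le _ _).trans ?_
    rw [norm_mul, Complex.norm_real, Real.norm_eq_abs, abs_of_pos hε, norm_pow, mul_add]
    linarith
  have hzero : ∀ z : ℂ, (dnum R).eval z = 0 := by
    intro z
    rw [← norm_eq_zero]
    apply le_antisymm _ (norm_nonneg _)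
    apply le_of_forall_pos_le_add
    intro δ hδ
    set B := ‖R.denom.eval z‖ ^ 2 + (‖z‖ + r') ^ (2 * R.denom.natDegree) with hB
    have hB0 : 0 ≤ B := by positivity
    have h1 := hbound z (δ / (B + 1)) (by positivity)
    rw [zero_add]
    refine h1.trans ?_
    rw [← hB, div_mul_eq_mul_div, div_le_iff₀ (by positivity)]
    nlinarith
  apply dnum_ne hp 0
  rw [C_0, zero_mul]
  exact Polynomial.funext (by simpa using hzero)

lemma dR_small {R : RatFunc ℂ} {p : ℂ} (hp : R.denom.eval p = 0)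
    (hdeg : R.num.natDegree ≤ R.denom.natDegree) {ε : ℝ} (hε : 0 < ε) :
    ∀ᶠ z in Bornology.cobounded ℂ, R.denom.eval z ≠ 0 → ‖dR R z‖ ≤ ε := by
  have hlt := natDegree_dnum_lt hp hdeg
  have hdl : (dnum R).degree < (R.denom ^ 2).degree := by
    apply degree_lt_degree
    rw [natDegree_pow]
    exact hlt
  filter_upwards [(isLittleO_cobounded_of_degree_lt hdl).def hε] with z hz h0
  rw [dR_eq h0, norm_div, div_le_iff₀ (norm_pos_iff.2 (pow_ne_zero 2 h0))]
  simpa using hz

lemma poles_finite (R : RatFunc ℂ) : {z : ℂ | R.denom.eval z = 0}.Finite :=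
  Polynomial.finite_setOfPred_isRoot R.denom_ne_zero

lemma pole_mem {R : RatFunc ℂ} {p : ℂ} (hp : R.denom.eval p = 0) : p ∈ realLocus R := Or.inl hp

/-- if `∞` is not a pole, then some finite pole lies in an unbounded component -/
lemma exists_unbounded {R : RatFunc ℂ} {p : ℂ} (hp : R.denom.eval p = 0)
    (hdeg : R.num.natDegree ≤ R.denom.natDegree) :
    ∃ z, R.denom.eval z = 0 ∧
      ¬ Bornology.IsBounded (connectedComponentIn (realLocus R) z) := by
  by_contra hcon
  push Not at hcon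
  have hcl : ∀ z : ℂ, ∃ V : Set ℂ, R.denom.eval z = 0 →
      V ⊆ realLocus R ∧ IsCompact V ∧ IsClosed (realLocus R \ V) ∧ z ∈ V := by
    intro z
    by_cases hz : R.denom.eval z = 0
    · obtain ⟨V, h1, h2, h3, h4, -⟩ := exists_clopen (isClosed_realLocus R) (pole_mem hz)
        (hcon z hz) isClosed_empty (Set.empty_disjoint _)
      exact ⟨V, fun _ => ⟨h1, h2, h3, h4⟩⟩
    · exact ⟨∅, fun h => absurd h hz⟩
  choose V hV using hcl
  set U : Set ℂ := ⋃ z ∈ {z : ℂ | R.denom.eval z = 0}, V z with hU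
  have hUc : IsCompact U := (poles_finite R).isCompact_biUnion fun z hz => (hV z hz).2.1
  have hUsub : U ⊆ realLocus R := Set.iUnion₂_subset fun z hz => (hV z hz).1
  have hUcl : IsClosed (realLocus R \ U) := by
    have : realLocus R \ U = ⋂ z ∈ {z : ℂ | R.denom.eval z = 0}, (realLocus R \ V z) := by
      ext w
      simp only [hU, Set.mem_sdiff, Set.mem_iUnion, Set.mem_iInter, not_exists]
      constructor
      · rintro ⟨h1, h2⟩ i hi
        exact ⟨h1, h2 i hi⟩
      · intro h
        exact ⟨(h p hp).1, fun i hi => (h i hi).2⟩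
    rw [this]
    exact isClosed_biInter fun z hz => (hV z hz).2.2.1
  have hUp : ∀ z, R.denom.eval z = 0 → z ∈ U := fun z hz =>
    Set.mem_iUnion₂.2 ⟨z, hz, (hV z hz).2.2.2⟩
  obtain ⟨r, hr⟩ := hUc.isBounded.subset_closedBall (0 : ℂ)
  obtain ⟨z1, hz1, hz2, hz3, hz4⟩ := exists_far hp hdeg r
  have hz1U : z1 ∉ U := fun h => by
    have := hr h
    rw [mem_closedBall, dist_zero_right] at this
    linarith
  set W : Set ℂ := {z | z ∈ realLocus R \ U ∧ (dR R z1).re ≤ (dR R z).re} with hW
  have hWne : z1 ∈ W := ⟨⟨Or.inr hz3, hz1U⟩, le_refl _⟩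
  have hWden : ∀ z ∈ W, R.denom.eval z ≠ 0 := fun z hz h => hz.1.2 (hUp z h)
  have hcont : ContinuousOn (fun z => (dR R z).re) (realLocus R \ U) := fun z hz =>
    (Complex.continuous_re.continuousAt.comp
      (analyticAt_dR fun h => hz.2 (hUp z h)).continuousAt).continuousWithinAt
  have hWcl : IsClosed W := by
    have := hcont.preimage_isClosed_of_isClosed hUcl (isClosed_Ici (a := (dR R z1).re))
    exact this
  have hWb : Bornology.IsBounded W := by
    have h1 := dR_small hp hdeg (ε := (dR R z1).re / 2) (by linarith)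
    rw [Bornology.isBounded_def]
    filter_upwards [h1] with z hz hzW
    have h2 := hz (hWden z hzW)
    have h3 := hzW.2
    have h4 := Complex.re_le_norm (dR R z)
    linarith
  have hWc : IsCompact W := Metric.isCompact_of_isClosed_isBounded hWcl hWb
  obtain ⟨z, hzW, hz⟩ := hWc.exists_isMaxOn ⟨z1, hWne⟩ (f := fun z => (dR R z).re)
    (hcont.mono fun z hz => hz.1)
  have him : (dR R z).im = 0 := hzW.1.1.resolve_left (hWden z hzW)
  obtain ⟨w, hw1, hw2, hw3, hw4⟩ := exists_larger hp (hWden z hzW) him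
    (hUc.isClosed.isOpen_compl.mem_nhds hzW.1.2)
  exact absurd (hz (⟨⟨Or.inr hw3, hw1⟩, hzW.2.trans hw4.le⟩ : w ∈ W)) (not_le.2 hw4)

/-! ## The two upper bounds -/

lemma bounded_subset {R : RatFunc ℂ} {p : ℂ} (hp : R.denom.eval p = 0) :
    boundedComponents R ⊆ (fun z => connectedComponentIn (realLocus R) z) ''
      {z | R.denom.eval z = 0 ∧ Bornology.IsBounded (connectedComponentIn (realLocus R) z)} := by
  rintro K ⟨⟨x, hx, rfl⟩, hb⟩
  obtain ⟨z, hz1, hz2⟩ := exists_pole_mem hp hx hb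
  have he := connectedComponentIn_eq hz1
  exact ⟨z, ⟨hz2, he ▸ hb⟩, he.symm⟩

lemma upper {R : RatFunc ℂ} {D : OnePoint ℂ →₀ ℕ} (hR : HasPoleDivisor R D)
    (hD : ∃ z : ℂ, D z ≠ 0) :
    (boundedComponents R).encard ≤
      (((if D OnePoint.infty = 0 then finitePoles D - 1 else finitePoles D) : ℕ) : ℕ∞) := by
  have hiff : ∀ z : ℂ, D z ≠ 0 ↔ R.denom.eval z = 0 := by
    intro z
    rw [← hR z]
    change R.denom.rootMultiplicity z ≠ 0 ↔ _
    rw [← Nat.pos_iff_ne_zero, rootMultiplicity_pos R.denom_ne_zero]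
    rfl
  obtain ⟨p, hp⟩ := hD
  rw [hiff] at hp
  have hset : {z : ℂ | D z ≠ 0} = {z : ℂ | R.denom.eval z = 0} := by
    ext z
    exact hiff z
  have hfin := poles_finite R
  set T : Set ℂ := {z | R.denom.eval z = 0 ∧
    Bornology.IsBounded (connectedComponentIn (realLocus R) z)} with hT
  have hTs : T ⊆ {z : ℂ | R.denom.eval z = 0} := fun z hz => hz.1
  have hTf : T.Finite := hfin.subset hTs
  have h1 : (boundedComponents R).encard ≤ T.encard :=
    (Set.encard_le_encard (bounded_subset hp)).trans (Set.encard_image_le _ _)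
  refine h1.trans ?_
  rw [← hTf.cast_ncard_eq, Nat.cast_le, finitePoles, hset]
  split_ifs with h0
  · have hdeg : R.num.natDegree ≤ R.denom.natDegree := by
      have h2 := hR OnePoint.infty
      rw [h0] at h2
      change R.intDegree.toNat = 0 at h2
      rw [Int.toNat_eq_zero, RatFunc.intDegree] at h2
      omega
    obtain ⟨z, hz1, hz2⟩ := exists_unbounded hp hdeg
    have hlt : T.ncard < {z : ℂ | R.denom.eval z = 0}.ncard := by
      apply Set.ncard_lt_ncard _ hfin
      refine ⟨hTs, fun h => ?_⟩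
      exact hz2 (h hz1).2
    omega
  · exact Set.ncard_le_ncard hTs hfin

/-! ## Construction -/

section construction
open scoped Classical

/-- `∏ (X - p) ^ m p` over `S` -/
noncomputable def den (S : Finset ℂ) (m : ℂ → ℕ) : ℂ[X] := ∏ p ∈ S, (X - C p) ^ m p

noncomputable def numer (S : Finset ℂ) (m : ℂ → ℕ) (c : ℂ → ℂ) (A : ℂ[X]) : ℂ[X] :=
  A * den S m + ∑ p ∈ S, C (c p) * den (S.erase p) m

/-- `A + ∑ c p / (X - p) ^ m p` -/
noncomputable def rat (S : Finset ℂ) (m : ℂ → ℕ) (c : ℂ → ℂ) (A : ℂ[X]) : RatFunc ℂ :=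
  algebraMap ℂ[X] (RatFunc ℂ) (numer S m c A) / algebraMap ℂ[X] (RatFunc ℂ) (den S m)

variable {S : Finset ℂ} {m : ℂ → ℕ} {c : ℂ → ℂ} {A : ℂ[X]}

lemma den_monic : (den S m).Monic := monic_prod_of_monic _ _ fun p _ => (monic_X_sub_C p).pow _

lemma den_eval (z : ℂ) : (den S m).eval z = ∏ p ∈ S, (z - p) ^ m p := by
  simp [den, eval_prod]

lemma den_eval_ne {z : ℂ} (hz : z ∉ S) : (den S m).eval z ≠ 0 := by
  rw [den_eval]
  refine Finset.prod_ne_zero_iff.2 fun p hp => pow_ne_zero _ (sub_ne_zero.2 ?_)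
  rintro rfl
  exact hz hp

lemma den_eval_eq {z : ℂ} (hz : z ∈ S) (hm : m z ≠ 0) : (den S m).eval z = 0 := by
  rw [den_eval]
  exact Finset.prod_eq_zero hz (by rw [sub_self, zero_pow hm])

lemma numer_eval {z : ℂ} (hz : z ∈ S) (hm : m z ≠ 0) :
    (numer S m c A).eval z = c z * (den (S.erase z) m).eval z := by
  unfold numer
  rw [eval_add, eval_mul, den_eval_eq hz hm, mul_zero, zero_add, eval_finsetSum,
    Finset.sum_eq_single z]
  · simp
  · intro p hp hpz
    rw [eval_mul, den_eval_eq (Finset.mem_erase.2 ⟨hpz.symm, hz⟩) hm, mul_zero]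
  · intro h
    exact absurd hz h

lemma coprime (hm : ∀ p ∈ S, m p ≠ 0) (hc : ∀ p ∈ S, c p ≠ 0) :
    IsCoprime (numer S m c A) (den S m) := by
  rw [Polynomial.isCoprime_iff_aeval_ne_zero_of_isAlgClosed (k := ℂ) ℂ]
  intro a
  simp only [coe_aeval_eq_eval]
  by_cases ha : a ∈ S
  · left
    rw [numer_eval ha (hm a ha)]
    exact mul_ne_zero (hc a ha) (den_eval_ne (Finset.notMem_erase a S))
  · right
    exact den_eval_ne ha

lemma num_denom {P Q : ℂ[X]} (hQ : Q.Monic) (h : IsCoprime P Q) :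
    RatFunc.num (algebraMap ℂ[X] (RatFunc ℂ) P / algebraMap ℂ[X] (RatFunc ℂ) Q) = P ∧
    RatFunc.denom (algebraMap ℂ[X] (RatFunc ℂ) P / algebraMap ℂ[X] (RatFunc ℂ) Q) = Q := by
  have hg : gcd P Q = 1 := by
    have h1 : IsUnit (gcd P Q) := by
      exact (gcd_isUnit_iff P Q).2 h
    rw [← normalize_gcd]
    exact normalize_eq_one.2 h1
  rw [RatFunc.num_div, RatFunc.denom_div _ hQ.ne_zero, hg]
  simp [hQ.leadingCoeff]

lemma rat_num (hm : ∀ p ∈ S, m p ≠ 0) (hc : ∀ p ∈ S, c p ≠ 0) :
    (rat S m c A).num = numer S m c A := (num_denom den_monic (coprime hm hc)).1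

lemma rat_denom (hm : ∀ p ∈ S, m p ≠ 0) (hc : ∀ p ∈ S, c p ≠ 0) :
    (rat S m c A).denom = den S m := (num_denom den_monic (coprime hm hc)).2

lemma den_eq {z : ℂ} (hz : z ∈ S) : den S m = (X - C z) ^ m z * den (S.erase z) m :=
  (Finset.mul_prod_erase S _ hz).symm

lemma den_mult (z : ℂ) : (den S m).rootMultiplicity z = if z ∈ S then m z else 0 := by
  split_ifs with hz
  · have h0 : (X - C z) ^ m z * den (S.erase z) m ≠ 0 :=
      mul_ne_zero (pow_ne_zero _ (X_sub_C_ne_zero z)) den_monic.ne_zero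
    rw [den_eq hz, rootMultiplicity_mul h0, rootMultiplicity_X_sub_C_pow,
      rootMultiplicity_eq_zero (den_eval_ne (Finset.notMem_erase z S)), add_zero]
  · exact rootMultiplicity_eq_zero (den_eval_ne hz)

lemma natDegree_den : (den S m).natDegree = ∑ p ∈ S, m p := by
  unfold den
  rw [natDegree_prod_of_monic _ _ fun p _ => (monic_X_sub_C p).pow _]
  simp

lemma natDegree_sum_le (hm : ∀ p ∈ S, m p ≠ 0) :
    (∑ p ∈ S, C (c p) * den (S.erase p) m).natDegree ≤ (den S m).natDegree - 1 := by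
  apply natDegree_sum_le_of_forall_le
  intro p hp
  refine (natDegree_C_mul_le _ _).trans ?_
  rw [natDegree_den, natDegree_den, ← Finset.add_sum_erase S m hp]
  have := hm p hp
  omega

lemma intDegree_zero (hm : ∀ p ∈ S, m p ≠ 0) (hc : ∀ p ∈ S, c p ≠ 0) :
    (rat S m c 0).intDegree.toNat = 0 := by
  rw [Int.toNat_eq_zero, RatFunc.intDegree, rat_num hm hc, rat_denom hm hc, numer, zero_mul,
    zero_add]
  have := natDegree_sum_le (c := c) hm
  omega

lemma intDegree_pos (hm : ∀ p ∈ S, m p ≠ 0) (hc : ∀ p ∈ S, c p ≠ 0) (hA : 1 ≤ A.natDegree) :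
    (rat S m c A).intDegree.toNat = A.natDegree := by
  have h1 := natDegree_sum_le (c := c) hm
  have hA0 : A ≠ 0 := by
    rintro rfl
    simp at hA
  have h2 : (A * den S m).natDegree = A.natDegree + (den S m).natDegree :=
    natDegree_mul hA0 den_monic.ne_zero
  have h3 : (numer S m c A).natDegree = A.natDegree + (den S m).natDegree := by
    unfold numer
    rw [natDegree_add_eq_left_of_natDegree_lt (by rw [h2]; omega), h2]
  rw [RatFunc.intDegree, rat_num hm hc, rat_denom hm hc, h3]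
  push_cast
  rw [add_sub_cancel_right]
  simp

lemma rat_eval (hm : ∀ p ∈ S, m p ≠ 0) (hc : ∀ p ∈ S, c p ≠ 0) {z : ℂ} (hz : z ∉ S) :
    (rat S m c A).eval (RingHom.id ℂ) z = A.eval z + ∑ p ∈ S, c p / (z - p) ^ m p := by
  have hd := den_eval_ne (m := m) hz
  rw [RatFunc.eval, rat_num hm hc, rat_denom hm hc, eval₂_id, eval₂_id, numer, eval_add, eval_mul,
    eval_finsetSum, add_div, mul_div_cancel_right₀ _ hd, Finset.sum_div]
  congr 1
  refine Finset.sum_congr rfl fun p hp => ?_
  have h1 : (den (S.erase p) m).eval z ≠ 0 := den_eval_ne fun h => hz (Finset.mem_of_mem_erase h)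
  rw [den_eq hp]
  simp only [eval_mul, eval_C, eval_pow, eval_sub, eval_X]
  rw [mul_div_mul_right _ _ h1]

lemma rat_deriv (hm : ∀ p ∈ S, m p ≠ 0) (hc : ∀ p ∈ S, c p ≠ 0) {z : ℂ} (hz : z ∉ S) :
    dR (rat S m c A) z =
      (derivative A).eval z - ∑ p ∈ S, (m p : ℂ) * c p / (z - p) ^ (m p + 1) := by
  have h1 : (fun w => (rat S m c A).eval (RingHom.id ℂ) w) =ᶠ[𝓝 z]
      fun w => A.eval w + ∑ p ∈ S, c p / (w - p) ^ m p := by
    have : (S : Set ℂ)ᶜ ∈ 𝓝 z := S.finite_toSet.isClosed.isOpen_compl.mem_nhds hz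
    filter_upwards [this] with w hw
    exact rat_eval hm hc hw
  have h2 : ∀ p ∈ S, HasDerivAt (fun w => c p / (w - p) ^ m p)
      (-((m p : ℂ) * c p / (z - p) ^ (m p + 1))) z := by
    intro p hp
    have hzp : z - p ≠ 0 := sub_ne_zero.2 (by rintro rfl; exact hz hp)
    have h3 := ((hasDerivAt_id z).sub_const p).fun_pow (m p)
    have h4 := (h3.fun_inv (pow_ne_zero _ hzp)).const_mul (c p)
    refine (h4.congr_deriv ?_).congr_of_eventuallyEq ?_
    · simp only [id]
      obtain ⟨k, hk⟩ := Nat.exists_eq_succ_of_ne_zero (hm p hp)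
      rw [hk]
      simp only [Nat.succ_eq_add_one, Nat.add_sub_cancel]
      field_simp
      ring
    · exact Eventually.of_forall fun w => div_eq_mul_inv _ _
  have h3 : HasDerivAt (fun w => A.eval w + ∑ p ∈ S, c p / (w - p) ^ m p)
      ((derivative A).eval z + ∑ p ∈ S, -((m p : ℂ) * c p / (z - p) ^ (m p + 1))) z :=
    (A.hasDerivAt z).fun_add (HasDerivAt.fun_sum h2)
  unfold dR
  rw [h1.deriv_eq, h3.deriv, Finset.sum_neg_distrib, sub_eq_add_neg]

end construction

lemma component_subset_ball {I : Set ℂ} {p : ℂ} {ρ : ℝ} (hp : p ∈ I) (hρ : 0 < ρ)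
    (h : ∀ z ∈ sphere p ρ, z ∉ I) : connectedComponentIn I p ⊆ ball p ρ := by
  apply IsPreconnected.subset_left_of_subset_union isOpen_ball
    (isClosed_closedBall (x := p) (ε := ρ)).isOpen_compl
  · rw [Set.disjoint_left]
    intro z hz1 hz2
    exact hz2 (ball_subset_closedBall hz1)
  · intro z hz
    have hzI := connectedComponentIn_subset I p hz
    by_cases h1 : z ∈ ball p ρ
    · exact Or.inl h1
    · refine Or.inr fun h2 => ?_
      rw [mem_closedBall] at h2
      rw [mem_ball, not_lt] at h1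
      exact h z (mem_sphere.2 (le_antisymm h2 h1)) hzI
  · exact ⟨p, mem_connectedComponentIn hp, mem_ball_self hρ⟩
  · exact isPreconnected_connectedComponentIn

/-- many bounded components, by perturbation -/
lemma exists_many (S S' : Finset ℂ) (hS : S' ⊆ S) (m : ℂ → ℕ) (hm : ∀ p ∈ S, m p ≠ 0) (A : ℂ[X])
    (c₀ : ℂ → ℂ) (hc₀ : ∀ p, c₀ p ≠ 0)
    (hG : ∀ p ∈ S', ((derivative A).eval p -
      ∑ q ∈ S \ S', (m q : ℂ) * c₀ q / (p - q) ^ (m q + 1)).im ≠ 0) :
    ∃ c : ℂ → ℂ, (∀ p, c p ≠ 0) ∧ (S'.card : ℕ∞) ≤ (boundedComponents (rat S m c A)).encard := by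
  classical
  set G : ℂ → ℂ := fun z => (derivative A).eval z -
    ∑ q ∈ S \ S', (m q : ℂ) * c₀ q / (z - q) ^ (m q + 1) with hGdef
  set H : ℂ → ℂ := fun z => ∑ q ∈ S', (m q : ℂ) / (z - q) ^ (m q + 1) with hHdef
  have hGc : ∀ z, z ∉ S \ S' → ContinuousAt G z := by
    intro z hz
    refine (derivative A).continuous.continuousAt.sub ?_
    refine tendsto_finsetSum _ fun q hq => ?_
    refine ContinuousAt.div continuousAt_const (by fun_prop) (pow_ne_zero _ (sub_ne_zero.2 ?_))
    rintro rfl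
    exact hz hq
  have hHc : ∀ z, z ∉ S' → ContinuousAt H z := by
    intro z hz
    refine tendsto_finsetSum _ fun q hq => ?_
    refine ContinuousAt.div continuousAt_const (by fun_prop) (pow_ne_zero _ (sub_ne_zero.2 ?_))
    rintro rfl
    exact hz hq
  -- the radii
  have hrad : ∀ p : ℂ, ∃ ρ : ℝ, 0 < ρ ∧ (p ∈ S' → ∀ z ∈ closedBall p ρ, (G z).im ≠ 0 ∧
      (z ∈ S → z = p)) := by
    intro p
    by_cases hp : p ∈ S'
    · have h1 : ∀ᶠ z in 𝓝 p, (G z).im ≠ 0 :=
        (Complex.continuous_im.continuousAt.comp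
          (hGc p fun h => (Finset.mem_sdiff.1 h).2 hp)).eventually_ne (hG p hp)
      have h2 : ∀ᶠ z in 𝓝 p, z ∈ ((S.erase p : Finset ℂ) : Set ℂ)ᶜ :=
        (S.erase p).finite_toSet.isClosed.isOpen_compl.mem_nhds (by simp)
      obtain ⟨ρ, hρ, hb⟩ := Metric.nhds_basis_closedBall.eventually_iff.1 (h1.and h2)
      refine ⟨ρ, hρ, fun _ z hz => ⟨(hb hz).1, fun hzS => ?_⟩⟩
      by_contra hne
      exact (hb hz).2 (Finset.mem_coe.2 (Finset.mem_erase.2 ⟨hne, hzS⟩))
    · exact ⟨1, one_pos, fun h => absurd h hp⟩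
  choose ρ hρ0 hρ using hrad
  -- points of the spheres
  have hsph : ∀ p ∈ S', ∀ z ∈ sphere p (ρ p), z ∉ S := by
    intro p hp z hz hzS
    have h1 := (hρ p hp z (sphere_subset_closedBall hz)).2 hzS
    rw [h1, mem_sphere, dist_self] at hz
    exact (hρ0 p).ne hz
  have hev : ∀ p ∈ S', ∀ᶠ ε : ℝ in 𝓝 0, ∀ z ∈ sphere p (ρ p), (G z - (ε : ℂ) * H z).im ≠ 0 := by
    intro p hp
    apply IsCompact.eventually_forall_of_forall_eventually (isCompact_sphere p (ρ p))
    intro y hy
    have hyS := hsph p hp y hy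
    have hc : ContinuousAt (fun x : ℝ × ℂ => (G x.2 - (x.1 : ℂ) * H x.2).im) (0, y) := by
      apply Complex.continuous_im.continuousAt.comp
      have e1 : ContinuousAt (fun x : ℝ × ℂ => G x.2) (0, y) :=
        ContinuousAt.comp (f := fun x : ℝ × ℂ => x.2) (g := G)
          (hGc y fun h => hyS (Finset.mem_sdiff.1 h).1) continuousAt_snd
      have e2 : ContinuousAt (fun x : ℝ × ℂ => H x.2) (0, y) :=
        ContinuousAt.comp (f := fun x : ℝ × ℂ => x.2) (g := H)
          (hHc y fun h => hyS (hS h)) continuousAt_snd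
      have e3 : ContinuousAt (fun x : ℝ × ℂ => (x.1 : ℂ)) (0, y) :=
        (Complex.continuous_ofReal.comp continuous_fst).continuousAt
      exact e1.sub (e3.mul e2)
    refine hc.eventually_ne ?_
    simp only [Complex.ofReal_zero, zero_mul, sub_zero]
    exact (hρ p hp y (sphere_subset_closedBall hy)).1
  have hev2 : ∀ᶠ ε : ℝ in 𝓝 0, ∀ p ∈ S', ∀ z ∈ sphere p (ρ p), (G z - (ε : ℂ) * H z).im ≠ 0 :=
    (Finset.eventually_all S').2 hev
  obtain ⟨ε, hε1, hε0⟩ := ((hev2.filter_mono nhdsWithin_le_nhds).and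
    (self_mem_nhdsWithin : Set.Ioi (0 : ℝ) ∈ 𝓝[>] 0)).exists
  have hεc : (ε : ℂ) ≠ 0 := by
    exact_mod_cast (Set.mem_Ioi.1 hε0).ne'
  set c : ℂ → ℂ := fun p => if p ∈ S' then (ε : ℂ) else c₀ p with hcdef
  have hc : ∀ p, c p ≠ 0 := by
    intro p
    rw [hcdef]
    dsimp only
    split_ifs
    · exact hεc
    · exact hc₀ p
  refine ⟨c, hc, ?_⟩
  set I := realLocus (rat S m c A) with hI
  have hden : (rat S m c A).denom = den S m := rat_denom hm fun p _ => hc p
  have hpI : ∀ p ∈ S', p ∈ I := by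
    intro p hp
    left
    rw [hden]
    exact den_eval_eq (hS hp) (hm p (hS hp))
  have havoid : ∀ p ∈ S', ∀ z ∈ sphere p (ρ p), z ∉ I := by
    intro p hp z hz hzI
    have hzS := hsph p hp z hz
    rw [hI, mem_realLocus, hden] at hzI
    have h1 := hzI.resolve_left (den_eval_ne hzS)
    rw [rat_deriv hm (fun p _ => hc p) hzS] at h1
    apply hε1 p hp z hz
    rw [← h1]
    congr 1
    rw [hGdef, hHdef]
    dsimp only
    rw [← Finset.sum_sdiff hS, sub_sub, Finset.mul_sum]
    congr 2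
    · refine Finset.sum_congr rfl fun q hq => ?_
      rw [hcdef]
      dsimp only
      rw [if_neg (Finset.mem_sdiff.1 hq).2]
    · refine Finset.sum_congr rfl fun q hq => ?_
      rw [hcdef]
      dsimp only
      rw [if_pos hq]
      ring
  have hcomp : ∀ p ∈ S', connectedComponentIn I p ⊆ ball p (ρ p) := fun p hp =>
    component_subset_ball (hpI p hp) (hρ0 p) (havoid p hp)
  have himg : (fun p => connectedComponentIn I p) '' (S' : Set ℂ) ⊆
      boundedComponents (rat S m c A) := by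
    rintro _ ⟨p, hp, rfl⟩
    exact ⟨⟨p, hpI p hp, rfl⟩, isBounded_ball.subset (hcomp p hp)⟩
  have hinj : Set.InjOn (fun p => connectedComponentIn I p) (S' : Set ℂ) := by
    intro p hp q hq hpq
    have h1 : q ∈ connectedComponentIn I p := by
      have : connectedComponentIn I p = connectedComponentIn I q := hpq
      rw [this]
      exact mem_connectedComponentIn (hpI q hq)
    have h2 := ball_subset_closedBall (hcomp p hp h1)
    exact ((hρ p hp q h2).2 (hS hq)).symm
  have h3 := Set.encard_le_encard himg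
  rw [hinj.encard_image, Set.encard_coe_eq_coe_finsetCard] at h3
  exact h3

lemma exists_generic (T : Finset ℂ) (u : ℂ → ℂ) (hu : ∀ p ∈ T, u p ≠ 0) :
    ∃ a : ℂ, a ≠ 0 ∧ ∀ p ∈ T, (a * u p).im ≠ 0 := by
  have h1 : ∀ p ∈ T, {t : ℕ | ((1 + (t : ℂ) * Complex.I) * u p).im = 0}.Finite := by
    intro p hp
    apply Set.Subsingleton.finite
    intro s hs t ht
    simp only [Set.mem_ofPred_eq, Complex.mul_im, Complex.add_re, Complex.one_re, Complex.mul_re,
      Complex.natCast_re, Complex.I_re, mul_zero, Complex.natCast_im, Complex.I_im, mul_one,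
      sub_self, add_zero, one_mul, Complex.add_im, Complex.one_im, zero_add] at hs ht
    by_contra hst
    have hst' : (s : ℝ) - t ≠ 0 := sub_ne_zero.2 (by exact_mod_cast hst)
    have h2 : ((s : ℝ) - t) * (u p).re = 0 := by linarith
    have h3 : (u p).re = 0 := (mul_eq_zero.1 h2).resolve_left hst'
    have h4 : (u p).im = 0 := by
      rw [h3] at hs
      linarith
    exact hu p hp (Complex.ext h3 h4)
  have h2 : (⋃ p ∈ T, {t : ℕ | ((1 + (t : ℂ) * Complex.I) * u p).im = 0}).Finite :=
    T.finite_toSet.biUnion h1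
  obtain ⟨t, ht⟩ := h2.infinite_compl.nonempty
  refine ⟨1 + (t : ℂ) * Complex.I, ?_, ?_⟩
  · intro h
    have := congrArg Complex.re h
    simp at this
  · intro p hp h
    exact ht (Set.mem_iUnion₂.2 ⟨p, hp, h⟩)

lemma exists_attain {D : OnePoint ℂ →₀ ℕ} (hD : ∃ z : ℂ, D z ≠ 0) :
    ∃ R : RatFunc ℂ, HasPoleDivisor R D ∧
      (((if D OnePoint.infty = 0 then finitePoles D - 1 else finitePoles D) : ℕ) : ℕ∞) ≤
        (boundedComponents R).encard := by
  classical
  have hfin : {z : ℂ | D z ≠ 0}.Finite := by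
    have : {z : ℂ | D z ≠ 0} = (fun z : ℂ => (z : OnePoint ℂ)) ⁻¹' (D.support : Set (OnePoint ℂ)) := by
      ext z
      simp
    rw [this]
    exact D.support.finite_toSet.preimage OnePoint.coe_injective.injOn
  set S : Finset ℂ := hfin.toFinset with hSdef
  have hSm : ∀ z : ℂ, z ∈ S ↔ D z ≠ 0 := by
    intro z
    rw [hSdef]
    simp
  set m : ℂ → ℕ := fun z => D z with hmdef
  have hm : ∀ p ∈ S, m p ≠ 0 := fun p hp => (hSm p).1 hp
  have hfp : finitePoles D = S.card := Set.ncard_eq_toFinset_card _ hfin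
  have hdiv : ∀ (c : ℂ → ℂ) (A : ℂ[X]), (∀ p, c p ≠ 0) →
      (rat S m c A).intDegree.toNat = D OnePoint.infty → HasPoleDivisor (rat S m c A) D := by
    intro c A hc hinf p
    induction p using OnePoint.rec with
    | infty => exact hinf
    | coe z =>
      change (rat S m c A).denom.rootMultiplicity z = D z
      rw [rat_denom hm fun p _ => hc p, den_mult]
      split_ifs with hz
      · rfl
      · rw [hSm, not_not] at hz
        exact hz.symm
  obtain ⟨p₁, hp₁⟩ := hD
  have hp₁S : p₁ ∈ S := (hSm p₁).2 hp₁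
  split_ifs with h0
  · obtain ⟨a, ha0, ha⟩ := exists_generic (S.erase p₁) (fun p => -((m p₁ : ℂ) /
      (p - p₁) ^ (m p₁ + 1))) (by
        intro p hp
        rw [neg_ne_zero]
        refine div_ne_zero (by exact_mod_cast hm p₁ hp₁S) (pow_ne_zero _ (sub_ne_zero.2 ?_))
        exact Finset.ne_of_mem_erase hp)
    obtain ⟨c, hc, hcard⟩ := exists_many S (S.erase p₁) (Finset.erase_subset _ _) m hm 0
      (fun _ => a) (fun _ => ha0) (by
        intro p hp
        have hs : S \ S.erase p₁ = {p₁} := by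
          ext q
          simp only [Finset.mem_sdiff, Finset.mem_erase, Finset.mem_singleton]
          constructor
          · rintro ⟨h1, h2⟩
            by_contra h3
            exact h2 ⟨h3, h1⟩
          · rintro rfl
            exact ⟨hp₁S, fun h => h.1 rfl⟩
        rw [hs, Finset.sum_singleton]
        have := ha p hp
        convert this using 2
        simp
        ring)
    refine ⟨rat S m c 0, hdiv c 0 hc ?_, ?_⟩
    · rw [intDegree_zero hm fun p _ => hc p, h0]
    · rw [hfp, ← Finset.card_erase_of_mem hp₁S]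
      exact hcard
  · obtain ⟨b, hb⟩ := Infinite.exists_notMem_finset S
    set k := D OnePoint.infty with hk
    obtain ⟨a, ha0, ha⟩ := exists_generic S (fun p => (k : ℂ) * (p - b) ^ (k - 1)) (by
        intro p hp
        refine mul_ne_zero (by exact_mod_cast h0) (pow_ne_zero _ (sub_ne_zero.2 ?_))
        rintro rfl
        exact hb hp)
    obtain ⟨c, hc, hcard⟩ := exists_many S S (Finset.Subset.refl _) m hm (C a * (X - C b) ^ k)
      (fun _ => 1) (fun _ => one_ne_zero) (by
        intro p hp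
        rw [Finset.sdiff_self, Finset.sum_empty, sub_zero]
        have := ha p hp
        convert this using 2
        simp [derivative_X_sub_C_pow])
    have hnd : (C a * (X - C b) ^ k).natDegree = k := by
      rw [natDegree_C_mul ha0, natDegree_pow, natDegree_X_sub_C, mul_one]
    refine ⟨rat S m c (C a * (X - C b) ^ k), hdiv c _ hc ?_, ?_⟩
    · rw [intDegree_pos hm (fun p _ => hc p) (by rw [hnd]; omega), hnd]
    · rw [hfp]
      exact hcard

/-- **The maximal number of bounded components of `𝔍_R`.**  For every pole divisor `D` with at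
least one finite pole, the maximum `N(D)` of the number of bounded components of `𝔍_R` over all the
rational functions `R` with pole divisor `D` is `s(D)` if `∞` is a pole and `s(D) - 1` otherwise. -/
theorem result (D : OnePoint ℂ →₀ ℕ) (hD : ∃ z : ℂ, D z ≠ 0) :
    IsGreatest {n : ℕ∞ | ∃ R : RatFunc ℂ, HasPoleDivisor R D ∧ (boundedComponents R).encard = n}
      (((if D OnePoint.infty = 0 then finitePoles D - 1 else finitePoles D) : ℕ) : ℕ∞) := by
  constructor
  · obtain ⟨R, hR, hle⟩ := exists_attain hD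
    exact ⟨R, hR, le_antisymm (upper hR hD) hle⟩
  · rintro n ⟨R, hR, rfl⟩
    exact upper hR hD

end Pool.Agent.Results.MP_bd2914_ag.SharpBound
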